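import Mathlib
import Pool.Agent.H2.Dbl3

set_option autoImplicit false

namespace Pool.Agent.Results.MP_c1d873_al.NoDetect

theorem result (k : ℕ∞) (hk : 1 ≤ k) :
    ¬ (∀ (n : ℕ) [NeZero n] (M : Type) [TopologicalSpace M] [T2Space M] [CompactSpace M]
    [ConnectedSpace M] [ChartedSpace (EuclideanHalfSpace n) M]
    [IsManifold (modelWithCornersEuclideanHalfSpace n) ((⊤ : ℕ∞) : WithTop ℕ∞) M],
  ∃ (G : Type) (_ : Group G),
    ∀ (N : Type) [TopologicalSpace N] [T2Space N] [CompactSpace N] [ConnectedSpace N]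
      [ChartedSpace (EuclideanHalfSpace n) N]
      [IsManifold (modelWithCornersEuclideanHalfSpace n) ((⊤ : ℕ∞) : WithTop ℕ∞) N],
      ((∃ ρ : G →* Equiv.Perm N, Function.Injective ρ ∧
          ∀ g : G, ContMDiff (modelWithCornersEuclideanHalfSpace n)
            (modelWithCornersEuclideanHalfSpace n) (k : WithTop ℕ∞) (ρ g)) ↔
        Nonempty (Diffeomorph (modelWithCornersEuclideanHalfSpace n)
          (modelWithCornersEuclideanHalfSpace n) M N (k : WithTop ℕ∞)))) := by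
  intro h
  have : ConnectedSpace Pool.Agent.H2.Dbl.J :=
    isConnected_iff_connectedSpace.1 (isConnected_Icc (by norm_num))
  obtain ⟨G, _, hG⟩ := h 1 Pool.Agent.H2.Dbl.J
  obtain ⟨ρ, hi, hs⟩ := (hG Pool.Agent.H2.Dbl.J).2 ⟨Diffeomorph.refl _ _ _⟩
  obtain ⟨e⟩ := (hG Pool.Agent.H2.Dbl.C).1 (Pool.Agent.H2.Dbl.double k hk G ρ hi hs)
  exact Pool.Agent.H2.Dbl.not_homeo e.toHomeomorph

end Pool.Agent.Results.MP_c1d873_al.NoDetect
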